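import Pool.Agent.TH746.IR.Tri3

/-!
# Rays of invisibility with at most three reflections, in all dimensions

Definitions (files `Pool/Agent/H721R2/Ivrii/Def.lean`, `Pool/Agent/TH746/UM/Curv.lean`,
`Pool/Agent/TH746/AL/Invis.lean` and `Pool/Agent/TH746/IR/Tri3.lean`), for a set `B` (the body) in
`ℝ^d`, with complement `Bᶜ`:

* `LocalDef Bᶜ q F`: near `q` the complement of the body is `{F < 0}`, `F` is `C³` near `q`,
  `F q = 0` and the gradient of `F` at `q` is not zero;
* `SmoothAt Bᶜ q`: for some such `F`, `F` is of class `C^∞` near `q`;
* `Mirror Bᶜ q v v'`: for some `F` as in `LocalDef` the direction `v` is not tangent to the boundary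
  at `q`, and `v'` is the direction `v` reflected in the tangent hyperplane at `q`;
* `Step Bᶜ q v q' v'`: `q' = q + t v` with `t > 0`, the open segment from `q` to `q'` does not meet
  `B`, and `v` is reflected into `v'` at `q'` as above;
* `InvRay B n y v A u`: the oriented line through `y` with unit direction `v` (`y` orthogonal to `v`,
  so `y` is the point of the line nearest to the origin) is a ray of invisibility with `n ≥ 1`
  reflections, at the points `A 0, ..., A (n - 1)`: it does not meet `B` before `A 0`, it is
  reflected there into `u 0`, the reflected ray goes on to `A 1` and is reflected into `u 1`, and so
  on; the last direction `u (n - 1)` is `v`, the last point `A (n - 1)` lies on the line and the line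
  does not meet `B` after it;
* `InvThree B`: the pairs `(y, v)` of such rays of invisibility with `n ≤ 3` reflections, `SmoothAt Bᶜ`
  at all of the points `A 0, ..., A (n - 1)`.

The pairs `(y, v)` with `|v| = 1` and `y` orthogonal to `v` are the standard model of the manifold of
oriented lines, of dimension `2 d - 2`. The theorem: for every `d ≥ 2` and every set `B`, `InvThree B`
has vanishing `(2 d - 2)`-dimensional Hausdorff measure. So no body with piecewise `C^∞` boundary, in
any dimension, is measure `k`-reflective with `k ≤ 3`.

## Outline of the proof

There are no rays with one or two reflections (`not_one`, `not_two`). A ray with three reflections is a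
closed chain of three mirrors, the last flight along the line being of any sign. Near a given chain
the chains which obey the reflection law at the vertices `1, 2, 3` depend smoothly on the `2 d - 2`
parameters of the first side (`exists_vchn`). Let `A` be the set of the parameters of the closed
chains, `L₀, L₁ > 0` and `L₂` the lengths of the flights (`L₂` of any sign), `ℓ = L₀ + L₁ + L₂`, `n` and
`N` the normal and its derivative at the middle reflection point, `e` the incoming direction there,
`c = ⟨n, e⟩`, `t = e - c n`.

* At almost all points of `A` the closing condition holds to first order, so that the variation of
  the chain which fixes the last reflection point gives, with the law of cosines in the plane of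
  the triangle, `2 c³ |t|² = ℓ ⟨N t, t⟩` (`tri`, `tri_rel`), and `ℓ` is stationary (`dlen`).
* At almost all points of `A` this relation may be differentiated along the variation which fixes the
  middle reflection point and turns the ray in the direction of `n - c e`. There
  `c' = 1 - c²`, `t' = -c t`, `N' = 0`, `ℓ' = 0`, and the derivative is `6 c² (1 - c²)² = 0` by the
  relation itself. So `t = 0`: the incidence at the middle point is normal.
* At almost all points of `A` also `t = 0` may be differentiated, in all directions, which is a
  contradiction (`tri_null`).
-/

set_option autoImplicit false

open MeasureTheory

namespace Pool.Agent.Results.MP_38cb64_an.AtMostThreeReflections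

open Pool.Agent.TH746.IR

/-- For every `d ≥ 2` and every body `B ⊆ ℝ^d` the rays of invisibility with at most three
reflections, all of them transversal and at points near which the boundary is `C^∞`, form a set of
measure zero in the `(2 d - 2)`-dimensional manifold of oriented lines. -/
theorem result (d : ℕ) (hd : 2 ≤ d) (B : Set (EuclideanSpace ℝ (Fin d))) :
    μH[((2 * d - 2 : ℕ) : ℝ)] (InvThree B) = 0 :=
  invThree_null hd B

end Pool.Agent.Results.MP_38cb64_an.AtMostThreeReflections
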