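import Pool.Agent.TH746.IR.Duo2

/-!
# Rays of invisibility with at most two reflections at curved points, in all dimensions

Definitions (files `Pool/Agent/H721R2/Ivrii/Def.lean`, `Pool/Agent/TH746/UM/Curv.lean`,
`Pool/Agent/TH746/AL/Invis.lean` and `Pool/Agent/TH746/IR/Duo2.lean`), for a set `B` (the body) in
`ℝ^d`, with complement `Bᶜ`:

* `LocalDef Bᶜ q F`: near `q` the complement of the body is `{F < 0}`, `F` is `C³` near `q`,
  `F q = 0` and the gradient of `F` at `q` is not zero;
* `SmoothAt Bᶜ q`: for some such `F`, `F` is of class `C^∞` near `q`;
* `Curv Bᶜ x 0`: for some such `F` at `x`, `F''(x)(w, w) = 0` for all tangent vectors `w`, i.e. the
  second fundamental form of the boundary vanishes at the single point `x`;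
* `Mirror Bᶜ q v v'`: for some `F` as in `LocalDef` the direction `v` is not tangent to the boundary
  at `q`, and `v'` is the direction `v` reflected in the tangent hyperplane at `q`;
* `Step Bᶜ q v q' v'`: `q' = q + t v` with `t > 0`, the open segment from `q` to `q'` does not meet
  `B`, and `v` is reflected into `v'` at `q'` as above;
* `InvRay B n y v A u`: the oriented line through `y` with unit direction `v` (`y` orthogonal to `v`,
  so `y` is the point of the line nearest to the origin) is a ray of invisibility with `n ≥ 1`
  reflections, at the points `A 0, ..., A (n - 1)`: it does not meet `B` before `A 0`, it is
  reflected there into `u 0`, the reflected ray goes on to `A 1` and is reflected into `u 1`, and so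
  on; the last direction `u (n - 1)` is `v`, the last point `A (n - 1)` lies on the line and the line
  does not meet `B` after it;
* `InvTwo B`: the pairs `(y, v)` of such rays of invisibility, with any number `n` of reflections,
  `SmoothAt Bᶜ` at all of the points `A 0, ..., A (n - 1)`, and `Curv Bᶜ (A k) 0` for all indices
  `k` but at most two.

The pairs `(y, v)` with `|v| = 1` and `y` orthogonal to `v` are the standard model of the manifold of
oriented lines, of dimension `2 d - 2`. The theorem: for every `d ≥ 2` and every set `B`, `InvTwo B`
has vanishing `(2 d - 2)`-dimensional Hausdorff measure. So almost every ray of invisibility of a body
with `C^∞` boundary is reflected at least three times at points at which the second fundamental form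
of the boundary does not vanish; a polyhedral body to which two arbitrary curved pieces are added
(or whose rays meet its curved pieces at most twice) is invisible only for a null set of rays.

## Outline of the proof

The ray is a closed chain of mirrors: after the last reflection one goes along the line back (or
ahead) to the first reflection point, a flight whose length may be negative (`ray_chain`). The sum
`ℓ` of the lengths of the flights is positive, because the ray is not straight. Let `0` and `m` be
the vertices of the chain at which the boundary may be curved, and `ℓ'` the length of the path from
`0` to `m`. Near a given chain the chains which obey the reflection law at the vertices `1, ..., n`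
depend smoothly on the `2 d - 2` parameters of the first side (`exists_vchn`). Let `A` be the set of
the parameters of the closed chains. For every `α` orthogonal to the direction `e` of the first side
there is a variation with `e' = α` for which the vertex `m` is fixed; the part of `x_k'` orthogonal
to the flight is `(ℓ_k - ℓ') e_k'`, `|e_k'| = |α|`, at all vertices `k` (`duo_var`).

* At almost all points of `A` the closing condition holds to first order, so `ℓ` is stationary by
  the first variation formula (`dlen`), and comparison at the vertex `n` gives `(ℓ - ℓ')² = ℓ'²`, so
  `ℓ' = ℓ / 2`.
* At almost all points of `A` this relation may be differentiated: `ℓ'` is stationary. The first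
  variation formula for the variation above, with `α` the component of the normal at `x_0`
  orthogonal to `e`, shows that the direction `e` is normal to the boundary at the vertex `0`.
* At almost all points of `A` also this may be differentiated, in all directions (in particular in
  those which fix the vertex `0` and turn `e`), which is a contradiction (`duo_null`).
-/

set_option autoImplicit false

open MeasureTheory

namespace Pool.Agent.Results.MP_38cb64_an.AtMostTwoCurvedReflections

open Pool.Agent.TH746.IR

/-- For every `d ≥ 2` and every body `B ⊆ ℝ^d` the rays of invisibility, with any number of
reflections, all of them transversal and at points near which the boundary is `C^∞`, at most two of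
them at points at which the second fundamental form of the boundary does not vanish, form a set of
measure zero in the `(2 d - 2)`-dimensional manifold of oriented lines. -/
theorem result (d : ℕ) (hd : 2 ≤ d) (B : Set (EuclideanSpace ℝ (Fin d))) :
    μH[((2 * d - 2 : ℕ) : ℝ)] (InvTwo B) = 0 :=
  invTwo_null hd B

end Pool.Agent.Results.MP_38cb64_an.AtMostTwoCurvedReflections
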