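import Pool.Agent.TH746.AL.Dim3

/-!
# Rays of invisibility with at most one arbitrary reflection, all the others being at algebraic
boundary points

Definitions (files `Pool/Agent/H721R2/Ivrii/Def.lean`, `Pool/Agent/TH746/AL/Main.lean` and
`Pool/Agent/TH746/AL/Invis.lean`), for a set `B` (the body) in `ℝ^d`, with complement `Bᶜ`:

* `LocalDef Bᶜ q F`: near `q` the complement of the body is `{F < 0}`, `F` is `C³` near `q`,
  `F q = 0` and the gradient of `F` at `q` is not zero;
* `Mirror Bᶜ q v v'`: for some such `F` the direction `v` is not tangent to the boundary at `q`, and
  `v'` is the direction `v` reflected in the tangent hyperplane at `q`;
* `Step Bᶜ q v q' v'`: `q' = q + t v` with `t > 0`, the open segment from `q` to `q'` does not meet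
  `B`, and `v` is reflected into `v'` at `q'` as above;
* `InvRay B n y v A u`: the oriented line through `y` with unit direction `v` (`y` orthogonal to `v`,
  so `y` is the point of the line nearest to the origin) is a ray of invisibility with `n ≥ 1`
  reflections, at the points `A 0, ..., A (n - 1)`: it does not meet `B` before `A 0`, it is
  reflected there into `u 0`, the reflected ray goes on to `A 1` and is reflected into `u 1`, and so
  on; the last direction `u (n - 1)` is `v`, the last point `A (n - 1)` lies on the line and the line
  does not meet `B` after it;
* `AlgAt B q`: near `q` the boundary of `B` lies in the zero set of a real polynomial the leading form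
  of which (homogeneous part of top degree) is not divisible by `X₁² + ... + X_d²`
  (a noncircular algebraic boundary point);
* `InvOne B`: the pairs `(y, v)`, `|v| = 1`, `y` orthogonal to `v`, of such rays of invisibility, with
  any number `n` of reflections, at most one of the points `A 0, ..., A (n - 1)` not being a
  noncircular algebraic boundary point.

The pairs `(y, v)` with `|v| = 1` and `y` orthogonal to `v` are the standard model of the manifold of
oriented lines, of dimension `2 d - 2`. The theorem: `InvOne B` has Hausdorff dimension at most
`2 d - 3`, so it is negligible (`null_of_dim`), for every `d ≥ 2` and every set `B`. So a body whose boundary consists of pieces of noncircular algebraic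
hypersurfaces (polyhedra, ellipsoids with different axes and so on, in any combination) is
invisible only for a null set of rays, and so is a body with such boundary pieces and one arbitrary
piece, as long as the rays meet the latter at most once.

## Outline of the proof

A ray of invisibility is a closed chain of mirrors: after the last reflection one goes along the
line back (or ahead) to the first point. Let `L = ∑ |A (i+1) - A i| - ⟨A (n-1) - A 0, v⟩` be the
defect of optical length; it is positive, because the ray is not straight. Let `x` be the arbitrary
reflection point, `u` the direction after the reflection there, `k` a countable field over which
the algebraic pieces are defined, and `K = k(x)`.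

* The first variation formula for a derivation of `ℝ` over `K` shows that `L` is algebraic over `K`
  (`length_alg`); the mirror at `x` plays no role.
* If `x` has at least `d - 1` algebraically independent coordinates over `k` and `u` is generic over
  `K`, then there is a place, finite and trivial on `K`, at which `e = λ u` (`λ` transcendental)
  becomes a generic isotropic vector; all the flight parameters with respect to `e` are finite
  there, because the mirrors are noncircular. So `L / λ` is finite and `λ² = e · e` vanishes at the
  place, which contradicts the algebraicity of `L` (`core_loop`, `loop_rank`, `cyc_low`).
* Hence for every such ray `x` has transcendence degree at most `d - 2` over `k`, or `u` has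
  transcendence degree at most `d - 2` over `K`. The pairs `(x, u)` of this kind form a set of
  dimension at most `2 d - 3` (`fub_dim`), and the rays depend on them in a locally Lipschitz way
  (`exists_parT`, `bad_dim`, `invOne_dim`).
-/

set_option autoImplicit false

open scoped ENNReal

namespace Pool.Agent.Results.MP_38cb64_an.OneArbitraryReflection

open Pool.Agent.TH746.AL

/-- For every `d ≥ 2` and every body `B ⊆ ℝ^d` the rays of invisibility, with any number of
reflections, all of them transversal and at boundary points of class `C³`, at most one of which is
not a noncircular algebraic boundary point, form a set of Hausdorff dimension at most `2 d - 3` in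
the `(2 d - 2)`-dimensional manifold of oriented lines. -/
theorem result (d : ℕ) (hd : 2 ≤ d) (B : Set (EuclideanSpace ℝ (Fin d))) :
    dimH (InvOne B) ≤ ((2 * d - 3 : ℕ) : ℝ≥0∞) :=
  invOne_dim hd B

end Pool.Agent.Results.MP_38cb64_an.OneArbitraryReflection
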