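import Pool.Agent.TH746.IR.Final

/-!
# Rays of invisibility with at most one non-umbilic reflection (one reflection at a point which is
not a vertex, in the plane)

Definitions (files `Pool/Agent/H721R2/Ivrii/Def.lean`, `Pool/Agent/TH746/UM/Curv.lean`,
`Pool/Agent/TH746/UM/Main.lean`, `Pool/Agent/TH746/AL/Invis.lean` and
`Pool/Agent/TH746/IR/Final.lean`), for a set `B` (the body) in `ℝ^d`, with complement `Bᶜ`:

* `LocalDef Bᶜ q F`: near `q` the complement of the body is `{F < 0}`, `F` is `C³` near `q`,
  `F q = 0` and the gradient of `F` at `q` is not zero;
* `SmoothAt Bᶜ q`: for some such `F`, `F` is of class `C^∞` near `q`;
* `Curv Bᶜ x κ`: for some such `F` at `x`, `F''(x)(w, w) = κ |∇F(x)| |w|²` for all tangent vectors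
  `w`, i.e. all the normal curvatures of the boundary at `x` are equal to `κ`;
* `Umbilic Bᶜ q`: `Curv Bᶜ q κ` for some `κ` (`κ = 0` included), a condition on the second
  fundamental form at the single point `q`;
* `Vertex Bᶜ q` (used in the plane): the curvature `κ x` of the boundary at its points `x` near `q`
  satisfies `κ x - κ q = o(|x - q|)`, i.e. the derivative of the curvature vanishes at `q`;
* `Round Bᶜ q`: `SmoothAt Bᶜ q` and, if `d = 2`, `Vertex Bᶜ q`, and, if `d ≥ 3`, `Umbilic Bᶜ q`;
* `Mirror Bᶜ q v v'`: for some `F` as in `LocalDef` the direction `v` is not tangent to the boundary
  at `q`, and `v'` is the direction `v` reflected in the tangent hyperplane at `q`;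
* `Step Bᶜ q v q' v'`: `q' = q + t v` with `t > 0`, the open segment from `q` to `q'` does not meet
  `B`, and `v` is reflected into `v'` at `q'` as above;
* `InvRay B n y v A u`: the oriented line through `y` with unit direction `v` (`y` orthogonal to `v`,
  so `y` is the point of the line nearest to the origin) is a ray of invisibility with `n ≥ 1`
  reflections, at the points `A 0, ..., A (n - 1)`: it does not meet `B` before `A 0`, it is
  reflected there into `u 0`, the reflected ray goes on to `A 1` and is reflected into `u 1`, and so
  on; the last direction `u (n - 1)` is `v`, the last point `A (n - 1)` lies on the line and the line
  does not meet `B` after it;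
* `InvRound B`: the pairs `(y, v)` of such rays of invisibility, with any number `n` of reflections,
  `SmoothAt Bᶜ` at all of the points `A 0, ..., A (n - 1)`, at most one of which is not `Round`.

The pairs `(y, v)` with `|v| = 1` and `y` orthogonal to `v` are the standard model of the manifold of
oriented lines, of dimension `2 d - 2`. The theorem: for every `d ≥ 2` and every set `B`, `InvRound B`
has vanishing `(2 d - 2)`-dimensional Hausdorff measure. So almost every ray of invisibility of a body
with `C^∞` boundary is reflected at least twice at non-umbilic points of the boundary (`d ≥ 3`), at
least twice at points which are not vertices of the boundary curve (`d = 2`). In particular a body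
bounded by pieces of spheres and hyperplanes, and one with such pieces and an arbitrary further one
which the rays meet at most once, is invisible only for a null set of rays.

## Outline of the proof

The ray is a closed chain of mirrors: after the last reflection one goes along the line back (or
ahead) to the first reflection point, a flight whose length may be negative (`ray_chain`). The sum
of the lengths of the flights, `∑ |A (i+1) - A i| - ⟨A (n-1) - A 0, v⟩`, is positive, because the ray
is not straight. Let the arbitrary reflection be the one at the first vertex of the chain. Near a
given chain the chains which obey the reflection law at the vertices `1, ..., n` depend smoothly on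
the `2 d - 2` parameters of the first side (`exists_vchn`). Assume that those which close up with round
vertices `1, ..., n - 1` form a set `A` of positive measure in the parameter space (`fam_null3`).

* Flatness (`exists_appr`, `umb_flat`, `lam_flat`). At almost all `z ∈ A` every smooth function that
  vanishes on `A` vanishes to infinite order at `z`. It follows (for `d ≥ 3` with the help of the
  Codazzi equation) that at almost all `z ∈ A` the boundary has contact of infinite order, in
  position and normal, with its osculating sphere or hyperplane at the vertices `1, ..., n - 1`.
  By the first variation formula (`dlen`) the length of the chain is constant to infinite order.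
* Shadowing (`chain_shadow2`). The true chain and the one in the osculating spheres and
  hyperplanes, with the same first side, differ by `O(|z' - z|^M)` for all `M`.
* So the model chain of `n - 1` reflections carries the line of the first side to a line which meets
  it at the constant distance `ℓ` along the path, to infinite order on `A` near `z`. This is an
  analytic condition on the line in which the arbitrary mirror does not occur any more; hence it
  holds for an open set of lines (`red3`), and then for the generic line over an extension field of
  `ℂ` (`germC`), which is impossible (`no_C`): the time `T` between the two points is an element
  of the field `U` of the universal chain, `T² (v · v) = ℓ²` with `ℓ ≠ 0`, so `v · v` is a square in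
  `U`, while `U` embeds in a field of Laurent series in such a way that `v · v` is not a square
  (`spec_q`).
-/

set_option autoImplicit false

open MeasureTheory

namespace Pool.Agent.Results.MP_38cb64_an.OneNonUmbilicReflection

open Pool.Agent.TH746.IR

/-- For every `d ≥ 2` and every body `B ⊆ ℝ^d` the rays of invisibility, with any number of
reflections, all of them transversal and at points near which the boundary is `C^∞`, at most one of
them at a point which is not umbilic (`d ≥ 3`), resp. not a vertex (`d = 2`), form a set of measure
zero in the `(2 d - 2)`-dimensional manifold of oriented lines. -/
theorem result (d : ℕ) (hd : 2 ≤ d) (B : Set (EuclideanSpace ℝ (Fin d))) :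
    μH[((2 * d - 2 : ℕ) : ℝ)] (InvRound B) = 0 :=
  invRound_null hd B

end Pool.Agent.Results.MP_38cb64_an.OneNonUmbilicReflection
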